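import Pool.Agent.helper16.GK.Spec

/-!
# Row EFC of project GK (MP_2e0e07_nt): effective Chebotarev for the absolute Galois group
-/

set_option autoImplicit false

namespace Pool.Agent.GK

open NumberField IsDedekindDomain

section lem

variable {K : Type} [Field K] [NumberField K]

theorem EFC_pos (v : Pl K) : 0 < nv K v := by
  rw [Nat.pos_iff_ne_zero]
  intro h
  exact v.ne_bot (Ideal.absNorm_eq_zero_iff.1 h)

theorem EFC_mem (p : ℕ) (hp : p.Prime) (v : Pl K) (h : p ∣ nv K v) : (p : 𝓞 K) ∈ v.asIdeal := by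
  have : Finite (𝓞 K ⧸ v.asIdeal) := v.asIdeal.finiteQuotientOfFreeOfNeBot v.ne_bot
  have : Fact p.Prime := ⟨hp⟩
  have h1 : p ∣ Nat.card (𝓞 K ⧸ v.asIdeal) := by
    have h2 : nv K v = Nat.card (𝓞 K ⧸ v.asIdeal) := by
      rw [nv, Ideal.absNorm_apply, Submodule.cardQuot_apply]
    rwa [h2] at h
  obtain ⟨x, hx⟩ := exists_prime_addOrderOf_dvd_card' p h1
  have h3 : (p : 𝓞 K ⧸ v.asIdeal) * x = 0 := by
    rw [← nsmul_eq_mul, ← hx]
    exact addOrderOf_nsmul_eq_zero x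
  have h4 : x ≠ 0 := by
    intro h0
    rw [h0, addOrderOf_zero] at hx
    exact hp.one_lt.ne hx
  have h5 : v.asIdeal.IsPrime := v.isPrime
  rcases mul_eq_zero.1 h3 with h6 | h6
  · rw [← Ideal.Quotient.eq_zero_iff_mem]
    rw [map_natCast]
    exact h6
  · exact absurd h6 h4

theorem EFC_prod (p h : ℕ) (hp : p.Prime) (hh : Module.finrank ℚ K ≤ h) :
    ∃ S : Finset (Pl K), (∀ v : Pl K, p ∣ nv K v → v ∈ S) ∧ ∏ v ∈ S, nv K v ≤ p ^ h := by
  classical
  have hI : Ideal.span {(p : 𝓞 K)} ≠ 0 := by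
    intro h0
    rw [Ideal.zero_eq_bot, Ideal.span_singleton_eq_bot] at h0
    exact hp.ne_zero (by exact_mod_cast h0)
  have hfin := Ideal.finite_factors hI
  refine ⟨hfin.toFinset, fun v hv => ?_, ?_⟩
  · rw [Set.Finite.mem_toFinset, Set.mem_ofPred_eq, Ideal.dvd_span_singleton]
    exact EFC_mem p hp v hv
  · have h1 : ∏ v ∈ hfin.toFinset, v.asIdeal ∣ Ideal.span {(p : 𝓞 K)} := by
      have h2 : ∏ v ∈ hfin.toFinset, v.asIdeal = ∏ I ∈ hfin.toFinset.image (fun v => v.asIdeal), I := by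
        rw [Finset.prod_image]
        intro v _ w _ hvw
        exact HeightOneSpectrum.ext hvw
      rw [h2]
      refine Finset.prod_primes_dvd _ (fun I hI => ?_) (fun I hI => ?_)
      · obtain ⟨v, -, rfl⟩ := Finset.mem_image.1 hI
        exact v.prime
      · obtain ⟨v, hv, rfl⟩ := Finset.mem_image.1 hI
        rw [Set.Finite.mem_toFinset, Set.mem_ofPred_eq] at hv
        exact hv
    have h3 : ∏ v ∈ hfin.toFinset, nv K v = Ideal.absNorm (∏ v ∈ hfin.toFinset, v.asIdeal) := by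
      rw [map_prod]
      rfl
    have h4 : Ideal.absNorm (Ideal.span {(p : 𝓞 K)}) = p ^ Module.finrank ℚ K := by
      rw [Ideal.absNorm_span_singleton]
      have h5 : Algebra.norm ℤ ((p : ℕ) : 𝓞 K) = (p : ℤ) ^ Module.finrank ℚ K := by
        have h6 := Algebra.norm_algebraMap (R := ℤ) (S := 𝓞 K) (p : ℤ)
        rw [RingOfIntegers.rank] at h6
        rw [← h6]
        congr 1
        simp
      rw [h5, Int.natAbs_pow, Int.natAbs_natCast]
    rw [h3]
    have h7 := Ideal.absNorm_dvd_absNorm_of_le (Ideal.dvd_iff_le.1 h1)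
    rw [h4] at h7
    refine (Nat.le_of_dvd (pow_pos hp.pos _) h7).trans (Nat.pow_le_pow_right hp.pos hh)

theorem EFC_card (m : ℕ) (hm : 0 < m) : m.primeFactors.card ≤ m := by
  have h1 : m.primeFactors ⊆ Finset.Icc 1 m := by
    intro q hq
    rw [Nat.mem_primeFactors] at hq
    rw [Finset.mem_Icc]
    exact ⟨hq.1.pos, Nat.le_of_dvd hm hq.2.1⟩
  refine (Finset.card_le_card h1).trans ?_
  rw [Nat.card_Icc]
  omega

end lem

theorem EFC_arith (A C c B1 h p₀ l N q D : ℕ) (hl : 1 ≤ l) 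
    (hD : D = N ^ B1 * (N * p₀ ^ h) ^ c) (hq : q ≤ C * (l * p₀ * N * D) ^ A) :
    q ≤ C * (p₀ ^ (1 + h * c)) ^ A * (l * N) ^ ((1 + B1 + c) * A) := by
  have h1 : l * p₀ * N * D ≤ p₀ ^ (1 + h * c) * (l * N) ^ (1 + B1 + c) := by
    rw [hD]
    have e1 : l * p₀ * N * (N ^ B1 * (N * p₀ ^ h) ^ c) = p₀ ^ (1 + h * c) * (l * N ^ (1 + B1 + c)) := by
      rw [mul_pow, ← pow_mul, pow_add, pow_one, pow_add, pow_add, pow_one]
      ring
    rw [e1, mul_pow l N]
    refine Nat.mul_le_mul_left _ (Nat.mul_le_mul_right _ ?_)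
    calc l = l ^ 1 := (pow_one l).symm
      _ ≤ l ^ (1 + B1 + c) := Nat.pow_le_pow_right hl (by omega)
  calc q ≤ C * (l * p₀ * N * D) ^ A := hq
    _ ≤ C * (p₀ ^ (1 + h * c) * (l * N) ^ (1 + B1 + c)) ^ A := Nat.mul_le_mul_left _ (Nat.pow_le_pow_left h1 _)
    _ = C * (p₀ ^ (1 + h * c)) ^ A * (l * N) ^ ((1 + B1 + c) * A) := by
      rw [mul_pow, ← pow_mul (l * N)]
      ring

theorem EFC (hCHEBE : Pool.Agent.CH.CHEBE_stmt) (hDSR : DSR_stmt) (hFXU : FXU_stmt) (hINR : INR_stmt)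
    (hLIF : LIF_stmt) : EFC_stmt := by
  classical
  intro h p₀ hp₀
  choose A C hAC using hCHEBE
  choose c hc using hDSR
  refine ⟨fun B => (1 + h * B + c (h * B)) * A (h * B), fun B => C (h * B) * (p₀ ^ (1 + h * c (h * B))) ^ A (h * B), ?_⟩
  intro K _ _ hK T N hN W hW l hl B U hU hUn hWU hUB g
  obtain ⟨L, hfd, hgal, hfr, hfix⟩ := hFXU K U hU hUn
  have hnf : NumberField L := NumberField.of_module_finite K L
  have hLB : Module.finrank ℚ L ≤ h * B := by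
    rw [← Module.finrank_mul_finrank ℚ K L, hfr]
    exact Nat.mul_le_mul hK hUB
  obtain ⟨S, hS, hSp⟩ := EFC_prod (K := K) p₀ h hp₀.out hK
  have hTpos : ∀ R : Finset (Pl K), 0 < ∏ v ∈ R, nv K v := fun R => Finset.prod_pos fun v _ => EFC_pos v
  have hdK : 0 < (discr K).natAbs := Int.natAbs_pos.2 (discr_ne_zero K)
  have hTN : ∏ v ∈ T, nv K v ≤ N := le_trans (Nat.le_mul_of_pos_left _ hdK) hN
  have hdN : (discr K).natAbs ≤ N := le_trans (Nat.le_mul_of_pos_right _ (hTpos T)) hN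
  have hN1 : 1 ≤ N := (hTpos T).trans_le hTN
  have hRS : ∏ v ∈ T ∪ S, nv K v ≤ N * p₀ ^ h := by
    have h1 := Finset.prod_union_inter (s₁ := T) (s₂ := S) (f := fun v => nv K v)
    calc ∏ v ∈ T ∪ S, nv K v ≤ (∏ v ∈ T ∪ S, nv K v) * ∏ v ∈ T ∩ S, nv K v :=
          Nat.le_mul_of_pos_right _ (hTpos _)
      _ = (∏ v ∈ T, nv K v) * ∏ v ∈ S, nv K v := h1
      _ ≤ N * p₀ ^ h := Nat.mul_le_mul hTN hSp
  have hdiff := natAbs_discr_eq_absNorm_differentIdeal_mul_natAbs_discr_pow K (𝓞 K) L (𝓞 L)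
  have hdL : 0 < (discr L).natAbs := Int.natAbs_pos.2 (discr_ne_zero L)
  have hdiff0 : differentIdeal (𝓞 K) (𝓞 L) ≠ ⊥ := by
    intro h0
    rw [h0, Ideal.absNorm_bot, zero_mul] at hdiff
    omega
  -- the discriminant of `L`
  have hDL : (discr L).natAbs ≤ N ^ (h * B) * (N * p₀ ^ h) ^ c (h * B) := by
    have h1 := hc (h * B) K L (T ∪ S) hLB ?_
    · exact h1.trans (Nat.mul_le_mul (Nat.pow_le_pow_left hdN _) (Nat.pow_le_pow_left hRS _))
    · intro P hP hPd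
      have hPb : P ≠ ⊥ := by
        rintro rfl
        exact hdiff0 (le_bot_iff.1 (Ideal.dvd_iff_le.1 hPd))
      have hPu : P.under (𝓞 K) ≠ ⊥ := by
        intro h0
        exact hPb (Ideal.eq_bot_of_comap_eq_bot h0)
      by_contra hcon
      push Not at hcon
      set v : Pl K := ⟨P.under (𝓞 K), inferInstance, hPu⟩ with hv
      have hvR : v ∉ T ∪ S := fun hvR => hcon v hvR rfl
      rw [Finset.mem_union, not_or] at hvR
      have hvp : ¬ p₀ ∣ nv K v := fun h0 => hvR.2 (hS v h0)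
      refine hINR K L v (fun σ hσ x hx => ?_) P hP rfl hPd
      exact (hfix σ).1 (hWU (hW v hvR.1 hvp σ hσ)) x hx
  set D : ℕ := N ^ (h * B) * (N * p₀ ^ h) ^ c (h * B) with hD
  set m : ℕ := l * p₀ * (∏ v ∈ T, nv K v) * (discr L).natAbs with hm
  have hmpos : 0 < m := by
    have := hp₀.out.pos
    have := hTpos T
    positivity
  have hmle : m ≤ l * p₀ * N * D := by
    rw [hm]
    exact Nat.mul_le_mul (Nat.mul_le_mul_left _ hTN) hDL
  have hDle : D ≤ l * p₀ * N * D := by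
    apply Nat.le_mul_of_pos_left
    have := hp₀.out.pos
    positivity
  obtain ⟨p, P, hp, hpT, hpC, hPp, hPn, hPf⟩ := hAC (h * B) K L (l * p₀ * N * D) (AlgEquiv.restrictNormalHom L g) m.primeFactors hLB
    (by
      rw [Int.abs_eq_natAbs]
      exact_mod_cast hDL.trans hDle)
    ((EFC_card m hmpos).trans hmle)
  have hpm : ¬ p ∣ m := fun h0 => hpT (Nat.mem_primeFactors.2 ⟨hp, h0, hmpos.ne'⟩)
  have hPu : P.under (𝓞 K) ≠ ⊥ := by
    intro h0
    rw [h0, Ideal.absNorm_bot] at hPn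
    exact hp.ne_zero hPn.symm
  set v : Pl K := ⟨P.under (𝓞 K), inferInstance, hPu⟩ with hv
  have hnv : nv K v = p := hPn
  have hFr : IsFr (AlgEquiv.restrictNormalHom L g) P (nv K v) := by
    intro x
    have h1 := hPf x
    have h2 : Nat.card (𝓞 K ⧸ P.under (𝓞 K)) = nv K v := by
      rw [nv, Ideal.absNorm_apply, Submodule.cardQuot_apply]
    rw [h2] at h1
    exact h1
  have hPd : ¬ P ∣ differentIdeal (𝓞 K) (𝓞 L) := by
    intro h0
    have h1 : ((Ideal.absNorm (differentIdeal (𝓞 K) (𝓞 L)) : ℕ) : 𝓞 L) ∈ P :=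
      (Ideal.dvd_iff_le.1 h0) (Ideal.absNorm_mem _)
    have h2 : ((Ideal.absNorm (differentIdeal (𝓞 K) (𝓞 L)) : ℕ) : 𝓞 K) ∈ v.asIdeal := by
      show ((Ideal.absNorm (differentIdeal (𝓞 K) (𝓞 L)) : ℕ) : 𝓞 K) ∈ P.under (𝓞 K)
      rw [Ideal.mem_comap, map_natCast]
      exact h1
    have h3 : ((p : ℕ) : 𝓞 K) ∈ v.asIdeal := by
      rw [← hnv]
      exact Ideal.absNorm_mem _
    have h4 : ¬ p ∣ Ideal.absNorm (differentIdeal (𝓞 K) (𝓞 L)) := by
      intro h5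
      apply hpm
      rw [hm]
      exact (h5.mul_right _).trans (by rw [← hdiff]; exact Dvd.intro_left _ rfl)
    have h6 : IsCoprime ((p : ℕ) : ℤ) ((Ideal.absNorm (differentIdeal (𝓞 K) (𝓞 L)) : ℕ) : ℤ) :=
      Nat.isCoprime_iff_coprime.2 ((Nat.Prime.coprime_iff_not_dvd hp).2 h4)
    obtain ⟨a, b, hab⟩ := h6
    have h7 : (1 : 𝓞 K) ∈ v.asIdeal := by
      have h8 : (1 : 𝓞 K) = (a : 𝓞 K) * ((p : ℕ) : 𝓞 K) + (b : 𝓞 K) * ((Ideal.absNorm (differentIdeal (𝓞 K) (𝓞 L)) : ℕ) : 𝓞 K) := by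
        have h9 := congrArg (fun n : ℤ => (n : 𝓞 K)) hab
        push_cast at h9
        exact h9.symm
      rw [h8]
      exact Ideal.add_mem _ (Ideal.mul_mem_left _ _ h3) (Ideal.mul_mem_left _ _ h2)
    exact v.isPrime.ne_top ((Ideal.eq_top_iff_one _).2 h7)
  obtain ⟨s, hs, hsg⟩ := hLIF K L g P v hPp hPd rfl hFr
  refine ⟨v, ?_, ?_, ?_, ?_, s, hs, ?_⟩
  · intro hvT
    apply hpm
    rw [hm]
    have h1 : p ∣ ∏ v ∈ T, nv K v := by
      rw [← hnv]
      exact Finset.dvd_prod_of_mem _ (by exact_mod_cast hvT)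
    exact (h1.mul_left _).mul_right _
  · rw [hnv]
    intro h0
    have h1 : p₀ = p := (Nat.prime_dvd_prime_iff_eq hp₀.out hp).1 h0
    apply hpm
    rw [hm, ← h1]
    exact ((Dvd.intro_left l rfl).mul_right _).mul_right _
  · rw [hnv, Nat.Prime.coprime_iff_not_dvd hp]
    intro h0
    apply hpm
    rw [hm]
    exact ((h0.mul_right _).mul_right _).mul_right _
  · rw [hnv]
    exact EFC_arith (A (h * B)) (C (h * B)) (c (h * B)) (h * B) h p₀ l N p D hl hD hpC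
  · rw [hfix]
    intro x hx
    rw [AlgEquiv.mul_apply, ← hsg x hx]
    exact AlgEquiv.symm_apply_apply s x

end Pool.Agent.GK
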